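import Mathlib
import Pool.Agent.H2.IR.Main

/-!
# MP_f2dc7b_co: shadow inequalities for convex 4-polytopes and icosahedral facets

`P` is the convex hull of the finite set `S` in Euclidean 4-space, with nonempty interior,
`f0 P` is the number of its vertices and `f3 P` the number of its facets.

For every surjective linear map `π` to the plane the number of pairs (facet `F`, vertex of `F`
which `π` maps to the interior of the shadow `π '' F`) is at most `2 (f0 P - 3)`. At most
`f0 P - 3` facets are stout: for every point `u` and every direction `u` of the affine hull of `F`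
at least two vertices `x` of `F` have a line `x u` which meets the relative interior of `F`.
Projective images of polytopes close to the regular icosahedron are stout.

If all facets are combinatorial icosahedra, then every vertex lies in at least twelve facets,
`93 ≤ f0 P ≤ f3 P`, and for every facet `F₀` and every two vertices `v`, `w` of `F₀` which are not
joined by an edge of `F₀` at least `f3 P - f0 P + 70` facets, seen from the line `v w`, have at
most one vertex `x` such that the plane through `v`, `w`, `x` meets their relative interior; so at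
most `f0 P - 70` facets are stout.
-/

set_option autoImplicit false

open Module

namespace Pool.Agent.Results.MP_f2dc7b_co.CentralShadows

open Pool.Agent.H77.IC Pool.Agent.H2.IR

/-- the number of vertices -/
noncomputable def f0 (P : Set E4) : ℕ := (P.extremePoints ℝ).ncard

/-- the number of facets -/
noncomputable def f3 (P : Set E4) : ℕ := {F : Set E4 | IsFacet P F}.ncard

/-- the number of stout facets -/
noncomputable def numStout (P : Set E4) : ℕ := {F : Set E4 | IsFacet P F ∧ Stout F}.ncard

theorem result (S : Finset E4) (P : Set E4) (hPS : P = convexHull ℝ (S : Set E4))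
    (hP : (interior P).Nonempty) :
    (∀ π : E4 →ₗ[ℝ] (Fin 2 → ℝ), Function.Surjective π →
      {p : Set E4 × E4 | IsFacet P p.1 ∧ p.2 ∈ inner π p.1}.Finite ∧
      {p : Set E4 × E4 | IsFacet P p.1 ∧ p.2 ∈ inner π p.1}.ncard + 6 ≤ 2 * f0 P) ∧
    numStout P + 3 ≤ f0 P ∧
    (∀ F : Set E4, (IsRegIco F → NearReg F) ∧ (NearReg F → Stout F)) ∧
    ((∀ F, IsFacet P F → IsIco F) →
      (∀ x ∈ P.extremePoints ℝ, 12 ≤ {F : Set E4 | IsFacet P F ∧ x ∈ F}.ncard) ∧
      93 ≤ f0 P ∧ f0 P ≤ f3 P ∧ numStout P + 70 ≤ f0 P ∧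
      (∀ F₀, IsFacet P F₀ → ∀ v ∈ F₀.extremePoints ℝ, ∀ w ∈ F₀.extremePoints ℝ,
        w ≠ v → w ∉ nb F₀ v →
        f3 P + 70 ≤ {F : Set E4 | IsFacet P F ∧ v ∉ F ∧ w ∉ F ∧
          (innerFrom v w F).ncard ≤ 1}.ncard + f0 P) ∧
      (∀ π : E4 →ₗ[ℝ] (Fin 2 → ℝ), Function.Surjective π →
        3 ≤ {F : Set E4 | IsFacet P F ∧ (inner π F).ncard ≤ 1}.ncard) ∧
      (∃ π : E4 →ₗ[ℝ] (Fin 2 → ℝ), 3 ≤ {F : Set E4 |
        IsFacet P F ∧ 11 ≤ ((π '' F).extremePoints ℝ).ncard}.ncard)) := by
  subst hPS
  obtain ⟨m1, m2, m3, m4⟩ := Pool.Agent.H2.IR.main S hP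
  refine ⟨m1, m2, m3, fun h => ?_⟩
  obtain ⟨n1, n2, n3, n4, n5, n6, n7⟩ := m4 h
  exact ⟨n1, n2, n3, n5, n4, n6, n7⟩

end Pool.Agent.Results.MP_f2dc7b_co.CentralShadows
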