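import Mathlib
import Pool.Agent.H77.EE.Main2

/-!
# MP_f2dc7b_co: exceptional edges of 4-polytopes with icosahedral facets

`P` is the convex hull of the finite set `S` in Euclidean 4-space, with nonempty interior, and all
its facets are combinatorial icosahedra (`IsIco`). `val P x y` is the number of facets containing
`x` and `y`; `Exc P x y`: `x y` is an edge (of some facet) and `3` does not divide `val P x y`.
`Visible P F z`: the point `z` is strictly beyond a supporting hyperplane of `P` containing `F`.

(1) For every facet `F` and every point `v` there is an exceptional edge which does not end at `v`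
and is not contained in `F`.
(2) For every vertex `u` which lies in at most two fifths of the facets and every point `v` there
is an exceptional edge which does not end at `v` and is contained in no facet through `u`.
(3) For all points `z`, `v`: if every exceptional edge which does not end at `v` lies in a facet
visible from `z` then ten times the number of facets which are not visible is less than the number
of pairs of a nonvisible and a visible facet with a two-dimensional intersection.
(4) No point is an endpoint of exactly one exceptional edge.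
(5) The graph of the exceptional edges contains a cycle.
-/

set_option autoImplicit false

open Set Module

namespace Pool.Agent.Results.MP_f2dc7b_co.ExceptionalEdges

open Pool.Agent.H77.IC Pool.Agent.H77.EE

theorem result (S : Finset E4) (P : Set E4) (hPS : P = convexHull ℝ (S : Set E4))
    (hP : (interior P).Nonempty) (hI : ∀ F, IsFacet P F → IsIco F) :
    (∀ F, IsFacet P F → ∀ v, ∃ x y, Exc P x y ∧ x ≠ v ∧ y ≠ v ∧ ¬ (x ∈ F ∧ y ∈ F)) ∧
    (∀ u ∈ P.extremePoints ℝ, 5 * {F | IsFacet P F ∧ u ∈ F}.ncard ≤ 2 * f3 P →
      ∀ v, ∃ x y, Exc P x y ∧ x ≠ v ∧ y ≠ v ∧ ∀ F, IsFacet P F → u ∈ F → ¬ (x ∈ F ∧ y ∈ F)) ∧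
    (∀ z v : E4, (∀ x y, Exc P x y → x ≠ v → y ≠ v →
        ∃ F, IsFacet P F ∧ Visible P F z ∧ x ∈ F ∧ y ∈ F) →
      10 * {F | IsFacet P F ∧ ¬ Visible P F z}.ncard <
        {p : Set E4 × Set E4 | IsFacet P p.1 ∧ IsFacet P p.2 ∧ ¬ Visible P p.1 z ∧
          Visible P p.2 z ∧ finrank ℝ (affineSpan ℝ (p.1 ∩ p.2)).direction = 2}.ncard) ∧
    (∀ x, {y | Exc P x y}.ncard ≠ 1) ∧
    ¬ (exG P).IsAcyclic := by
  subst hPS
  exact ⟨fun F hF v => main2 S hP hI hF v, fun u hu hc v => main3 S hP hI hu hc v,
    fun z v hz => main1 S hP hI z v hz, fun x => main4 S hP hI x, main5 S hP hI⟩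

end Pool.Agent.Results.MP_f2dc7b_co.ExceptionalEdges
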